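import Mathlib
import Pool.Agent.Kur.Defs
import Pool.Agent.Kur.Final
import Pool.Agent.Kur.Succ

/-!
MP_14431a_gt, Q1: the least weight `σ` of an `ω`-bounded abelian topological group that is not
projectively weight-small.
-/

open Cardinal

namespace Pool.Agent.Results.MP_14431a_gt.SigmaKurepa

open Pool.Agent.Kur

/-- The value of `σ`.
* `𝔠⁺ ≤ σ ≤ (2 ^ 𝔠)⁺`;
* for every natural number `n`, `σ` is the `(n+1)`-st successor of `𝔠` if and only if `n` is least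
  such that `TraceFamily` holds at the `n`-th successor of `𝔠` (for `n = 0`: `σ = 𝔠⁺` if and only
  if `TraceFamily 𝔠`);
* `σ = lam⁺` for some `lam ≥ 𝔠` with `TraceFamily lam`, and `σ ≤ lam⁺` whenever `lam ^ ℵ₀ = lam ≥ 2`
  and `TraceFamily lam`; hence `σ = mu⁺` for the least `mu ≥ 𝔠` with `TraceFamily mu`, whenever
  `mu ^ ℵ₀ = mu`;
* under `CH`, `σ = ℵ₂` if and only if Kurepa's Hypothesis holds; under `CH`, `2 ^ ℵ₁ = ℵ₂` and the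
  negation of Kurepa's Hypothesis, `σ = ℵ₃`. -/
theorem result :
    (Order.succ 𝔠 ≤ sigma ∧ sigma ≤ Order.succ (2 ^ 𝔠)) ∧
    (∀ n : ℕ, sigma = (Order.succ^[n + 1]) 𝔠 ↔
      (TraceFamily ((Order.succ^[n]) 𝔠) ∧ ∀ m < n, ¬ TraceFamily ((Order.succ^[m]) 𝔠))) ∧
    (∃ lam : Cardinal.{0}, 𝔠 ≤ lam ∧ TraceFamily lam ∧ sigma = Order.succ lam) ∧
    (∀ lam : Cardinal.{0}, 2 ≤ lam → lam ^ (ℵ₀ : Cardinal.{0}) = lam → TraceFamily lam →
      sigma ≤ Order.succ lam) ∧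
    (∀ mu : Cardinal.{0}, 𝔠 ≤ mu → TraceFamily mu →
      (∀ lam : Cardinal.{0}, 𝔠 ≤ lam → TraceFamily lam → mu ≤ lam) →
      mu ^ (ℵ₀ : Cardinal.{0}) = mu → sigma = Order.succ mu) ∧
    ((𝔠 : Cardinal.{0}) = ℵ_ 1 → (sigma = ℵ_ 2 ↔ KurepaHypothesis)) ∧
    ((𝔠 : Cardinal.{0}) = ℵ_ 1 → (2 : Cardinal.{0}) ^ (ℵ_ 1) = ℵ_ 2 → ¬ KurepaHypothesis →
      sigma = ℵ_ 3) :=
  ⟨⟨Order.succ_le_of_lt continuum_lt_sigma, sigma_le_succ_two_pow⟩,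
    sigma_eq_iterate_iff, sigma_eq_succ, fun _ h2 h3 h4 => sigma_le h3 h2 h4,
    fun _ h1 h2 h3 h4 => sigma_eq_succ_of_least h1 h2 h3 h4,
    sigma_eq_aleph_two_iff, sigma_eq_aleph_three⟩

end Pool.Agent.Results.MP_14431a_gt.SigmaKurepa
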